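import Pool.Agent.H110R3.Urn.Stmts

/-! Task N1b of the project H110-URN: size of the one step increment of the quadratic form. -/

namespace Pool.Agent.H780R3.Urn

open Pool.Agent.H110R3.Urn

theorem abs_quad {m : ℕ} (Q : Fin m → Fin m → ℝ) (δ δ' : Fin m → ℝ) (R e : ℝ)
    (hR : 0 ≤ R) (he : 0 ≤ e)
    (hδ : ∀ i, |δ i| ≤ R) (hη : ∀ i, |δ' i - δ i| ≤ e) :
    |Qf Q δ' - Qf Q δ| ≤ (∑ i, ∑ j, |Q i j|) * (2 * R * e + e * e) := by
  unfold Qf
  rw [← Finset.sum_sub_distrib, Finset.sum_mul]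
  refine (Finset.abs_sum_le_sum_abs _ _).trans (Finset.sum_le_sum fun i _ => ?_)
  rw [← Finset.sum_sub_distrib, Finset.sum_mul]
  refine (Finset.abs_sum_le_sum_abs _ _).trans (Finset.sum_le_sum fun j _ => ?_)
  have h1 : Q i j * δ' i * δ' j - Q i j * δ i * δ j =
      Q i j * (δ i * (δ' j - δ j) + (δ' i - δ i) * δ j + (δ' i - δ i) * (δ' j - δ j)) := by ring
  rw [h1, abs_mul]
  refine mul_le_mul_of_nonneg_left ?_ (abs_nonneg _)
  have a1 : |δ i * (δ' j - δ j)| ≤ R * e := by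
    rw [abs_mul]; exact mul_le_mul (hδ i) (hη j) (abs_nonneg _) hR
  have a2 : |(δ' i - δ i) * δ j| ≤ e * R := by
    rw [abs_mul]; exact mul_le_mul (hη i) (hδ j) (abs_nonneg _) he
  have a3 : |(δ' i - δ i) * (δ' j - δ j)| ≤ e * e := by
    rw [abs_mul]; exact mul_le_mul (hη i) (hη j) (abs_nonneg _) he
  calc |δ i * (δ' j - δ j) + (δ' i - δ i) * δ j + (δ' i - δ i) * (δ' j - δ j)|
      ≤ |δ i * (δ' j - δ j)| + |(δ' i - δ i) * δ j| + |(δ' i - δ i) * (δ' j - δ j)| :=
        abs_add_three _ _ _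
    _ ≤ R * e + e * R + e * e := by linarith
    _ = 2 * R * e + e * e := by ring

theorem tot_pos {m : ℕ} (hm : 0 < m) (b : Fin m → ℕ) (hb : ∀ i, 1 ≤ b i) : 0 < tot b := by
  unfold tot
  have : Nonempty (Fin m) := ⟨⟨0, hm⟩⟩
  refine Finset.sum_pos (fun i _ => ?_) Finset.univ_nonempty
  have := hb i
  positivity

theorem X_mem {m : ℕ} (hm : 0 < m) (b : Fin m → ℕ) (hb : ∀ i, 1 ≤ b i) (i : Fin m) :
    0 ≤ X b i ∧ X b i ≤ 1 := by
  have ht := tot_pos hm b hb
  unfold X
  refine ⟨by positivity, ?_⟩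
  rw [div_le_one ht]
  unfold tot
  exact Finset.single_le_sum (f := fun i => (b i : ℝ)) (fun j _ => by positivity)
    (Finset.mem_univ i)

theorem abs_le_sqrt_sum {m : ℕ} (δ : Fin m → ℝ) (i : Fin m) :
    |δ i| ≤ Real.sqrt (∑ i, (δ i) ^ 2) := by
  rw [← Real.sqrt_sq_eq_abs]
  exact Real.sqrt_le_sqrt (Finset.single_le_sum (f := fun i => (δ i) ^ 2)
    (fun j _ => sq_nonneg _) (Finset.mem_univ i))

theorem taskN1b : TaskN1b := by
  intro hA3 m G _ hm Q
  obtain ⟨-, hY, -, hX, -⟩ := hA3 m G hm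
  set N : ℝ := (NE G : ℝ) with hN
  have hN0 : 0 ≤ N := by positivity
  have hS0 : 0 ≤ ∑ i, ∑ j, |Q i j| :=
    Finset.sum_nonneg fun i _ => Finset.sum_nonneg fun j _ => abs_nonneg _
  set S : ℝ := ∑ i, ∑ j, |Q i j| with hS
  refine ⟨S * (4 * N + 4 * N ^ 2) + 1, by positivity, ?_⟩
  intro b b' hb hb' htot s s'
  have ht := tot_pos hm b hb
  set T : ℝ := tot b with hT
  set R : ℝ := Real.sqrt (∑ i, (X b i - X b' i) ^ 2) with hR
  have hR0 : 0 ≤ R := Real.sqrt_nonneg _
  have key := abs_quad Q (fun i => X b i - X b' i)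
    (fun i => X (stp G b s) i - X (stp G b' s') i) R (2 * N / T) hR0 (by positivity)
    (fun i => abs_le_sqrt_sum (fun i => X b i - X b' i) i) (by
      intro i
      have e1 := hX b s hb i
      have e2 := hX b' s' hb' i
      rw [← htot] at e2
      rw [← hT] at e1
      have e3 : X (stp G b s) i - X (stp G b' s') i - (X b i - X b' i) =
          ((Y G s i : ℝ) - (Y G s' i : ℝ) - N * (X b i - X b' i)) / (T + N) := by
        have : X (stp G b s) i - X (stp G b' s') i - (X b i - X b' i) =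
          (X (stp G b s) i - X b i) - (X (stp G b' s') i - X b' i) := by ring
        rw [this, e1, e2]; ring
      show |X (stp G b s) i - X (stp G b' s') i - (X b i - X b' i)| ≤ _
      rw [e3, abs_div, abs_of_pos (show 0 < T + N by positivity)]
      have x1 := X_mem hm b hb i
      have x2 := X_mem hm b' hb' i
      have y1 : (Y G s i : ℝ) ≤ N := by rw [hN]; exact_mod_cast hY s i
      have y2 : (Y G s' i : ℝ) ≤ N := by rw [hN]; exact_mod_cast hY s' i
      have y3 : (0 : ℝ) ≤ Y G s i := by positivity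
      have y4 : (0 : ℝ) ≤ Y G s' i := by positivity
      have d1 : |(Y G s i : ℝ) - (Y G s' i : ℝ) - N * (X b i - X b' i)| ≤ 2 * N := by
        have z1 : N * (X b i - X b' i) ≤ N := by
          nlinarith [x1.1, x1.2, x2.1, x2.2]
        have z2 : -N ≤ N * (X b i - X b' i) := by
          nlinarith [x1.1, x1.2, x2.1, x2.2]
        rw [abs_le]; constructor <;> linarith
      calc |(Y G s i : ℝ) - (Y G s' i : ℝ) - N * (X b i - X b' i)| / (T + N)
          ≤ 2 * N / (T + N) := by gcongr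
        _ ≤ 2 * N / T := by
          apply div_le_div_of_nonneg_left (by positivity) ht (by linarith))
  refine key.trans ?_
  have e1 : S * (2 * R * (2 * N / T) + 2 * N / T * (2 * N / T)) =
      S * (4 * N) * (R / T) + S * (4 * N ^ 2) * (1 / T ^ 2) := by
    field_simp
    ring
  rw [e1]
  have q1 : 0 ≤ R / T := by positivity
  have q2 : 0 ≤ 1 / T ^ 2 := by positivity
  have q3 : 0 ≤ S * (4 * N ^ 2) * (R / T) := by positivity
  have q4 : 0 ≤ S * (4 * N) * (1 / T ^ 2) := by positivity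
  nlinarith

end Pool.Agent.H780R3.Urn
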